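import Pool.Agent.helper26.IM.SpecA

/-!
# CPX: compactness, also after an extension of the field

The signed sums are copied from the hand-in SmallMinorsAllFields of helper26.
-/

set_option autoImplicit false

open Finset

namespace Pool.Agent.helper26.IM

open Finset Pool.Agent.RRank Pool.Agent.helper35.MR

universe u v

section Split

variable {d : ℕ} {Q : Fin d → Type u} {K : Type v} [Field K]

/-- A tensor of partition rank at most one is a product of a function of the coordinates in `O`
and a function of the other coordinates, for some `O` with `|O ∩ S|` odd. -/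
lemma CPX_exists_odd_split {S : Finset (Fin d)} (hS : Odd S.card) (α₀ : Fin d)
    {t : ((α : Fin d) → Q α) → K} (h : RankLEOne (twoParts d) t) :
    ∃ O : Finset (Fin d), Odd (O ∩ S).card ∧ O ≠ univ ∧ ∃ f g : ((α : Fin d) → Q α) → K,
      DependsOn f ((Oᶜ : Finset (Fin d)) : Set (Fin d)) ∧ DependsOn g (O : Set (Fin d)) ∧
      ∀ x, t x = f x * g x := by
  classical
  obtain ⟨I, hI, hIc, f, g, hf, hg, hfg⟩ := exists_mul_of_rankLEOne α₀ h
  have hsum : (I ∩ S).card + (Iᶜ ∩ S).card = S.card := by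
    rw [← Finset.card_union_of_disjoint]
    · congr 1
      ext x
      simp only [Finset.mem_union, Finset.mem_inter, Finset.mem_compl]
      tauto
    · rw [Finset.disjoint_left]
      intro x hx hx'
      simp only [Finset.mem_inter, Finset.mem_compl] at hx hx'
      exact hx'.1 hx.1
  by_cases hodd : Odd (I ∩ S).card
  · refine ⟨I, hodd, ?_, g, f, hg, hf, fun x => by rw [hfg, mul_comm]⟩
    rintro rfl
    simp at hIc
  · refine ⟨Iᶜ, ?_, ?_, f, g, ?_, hg, hfg⟩
    · rw [Nat.not_odd_iff_even] at hodd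
      have h1 : Odd ((I ∩ S).card + (Iᶜ ∩ S).card) := by rw [hsum]; exact hS
      exact (Nat.odd_add'.1 h1).2 hodd
    · intro h1
      have : α₀ ∈ Iᶜ := by rw [h1]; exact Finset.mem_univ _
      exact (Finset.mem_compl.1 this) hI
    · rwa [compl_compl]

end Split

section Csum

variable {d : ℕ} {Q : Fin d → Type u} {K : Type v} [Field K] {k : Fin d → ℕ}

/-- The families of permutations that preserve the classes. -/
def CPX_perms {ι : Type} [Fintype ι] [DecidableEq ι] (κ : ι → (α : Fin d) → Fin (k α)) :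
    Finset (Fin d → Equiv.Perm ι) :=
  Fintype.piFinset fun α => univ.filter fun σ => ∀ i, κ (σ i) α = κ i α

lemma CPX_mem_perms {ι : Type} [Fintype ι] [DecidableEq ι] {κ : ι → (α : Fin d) → Fin (k α)}
    {σ : Fin d → Equiv.Perm ι} : σ ∈ CPX_perms κ ↔ ∀ α i, κ (σ α i) α = κ i α := by
  unfold CPX_perms
  simp only [Fintype.mem_piFinset, Finset.mem_filter, Finset.mem_univ, true_and]

/-- The sign of a family of permutations. -/
def CPX_sgn (K : Type v) [Field K] (S : Finset (Fin d)) {ι : Type} [Fintype ι] [DecidableEq ι]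
    (σ : Fin d → Equiv.Perm ι) : K :=
  ∏ α ∈ S, (((Equiv.Perm.sign (σ α) : ℤˣ) : ℤ) : K)

/-- The signed sum. -/
def CPX_csum (S : Finset (Fin d)) {ι : Type} [Fintype ι] [DecidableEq ι]
    (κ : ι → (α : Fin d) → Fin (k α)) (T : ((α : Fin d) → Q α) → K)
    (xs : (α : Fin d) → ι → Q α) : K :=
  ∑ σ ∈ CPX_perms κ, CPX_sgn K S σ * ∏ i : ι, T (fun α => xs α (σ α i))

lemma CPX_sgn_mul_swap (S O : Finset (Fin d)) (hO : Odd (O ∩ S).card) {ι : Type} [Fintype ι]
    [DecidableEq ι] (σ h : Fin d → Equiv.Perm ι) {i i' : ι} (hii : i ≠ i')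
    (hh : ∀ α, h α = if α ∈ O then Equiv.swap i i' else 1) :
    CPX_sgn K S (σ * h) = - CPX_sgn K S σ := by
  unfold CPX_sgn
  have h1 : ∀ α ∈ S, (((Equiv.Perm.sign ((σ * h) α) : ℤˣ) : ℤ) : K) =
      (((Equiv.Perm.sign (σ α) : ℤˣ) : ℤ) : K) * (if α ∈ O then -1 else 1) := by
    intro α _
    rw [Pi.mul_apply, hh, Equiv.Perm.sign_mul]
    by_cases hα : α ∈ O
    · rw [if_pos hα, if_pos hα, Equiv.Perm.sign_swap hii]
      simp
    · rw [if_neg hα, if_neg hα]
      simp
  rw [Finset.prod_congr rfl h1, Finset.prod_mul_distrib]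
  have h2 : ∏ α ∈ S, (if α ∈ O then (-1 : K) else 1) = -1 := by
    rw [Finset.prod_ite, Finset.prod_const_one, mul_one, Finset.prod_const]
    have h3 : (S.filter fun α => α ∈ O).card = (O ∩ S).card := by
      congr 1
      ext α
      simp only [Finset.mem_filter, Finset.mem_inter]
      tauto
    rw [h3]
    exact hO.neg_one_pow
  rw [h2]
  ring

/-- **Vanishing.** -/
lemma CPX_csum_eq_zero {S : Finset (Fin d)} (hS : Odd S.card) (α₀ : Fin d)
    {T : ((α : Fin d) → Q α) → K} {r m : ℕ} (hT : SumOf (twoParts d) T r)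
    (hm : ∀ O : Finset (Fin d), Odd (O ∩ S).card → O ≠ univ → ∏ α ∈ O, k α ≤ m)
    {ι : Type} [Fintype ι] [DecidableEq ι] (κ : ι → (α : Fin d) → Fin (k α))
    (hr : r * m < Fintype.card ι) (xs : (α : Fin d) → ι → Q α) : CPX_csum S κ T xs = 0 := by
  classical
  obtain ⟨t, ht, hsum⟩ := hT
  choose O hO hOu f g hf hg hfg using fun i => CPX_exists_odd_split hS α₀ (ht i)
  have e1 : CPX_csum S κ T xs = ∑ c : ι → Fin r, ∑ σ ∈ CPX_perms κ, CPX_sgn K S σ *
      ∏ i : ι, (f (c i) (fun α => xs α (σ α i)) * g (c i) (fun α => xs α (σ α i))) := by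
    unfold CPX_csum
    rw [Finset.sum_comm]
    refine Finset.sum_congr rfl fun σ _ => ?_
    have e2 : ∀ i : ι, T (fun α => xs α (σ α i)) =
        ∑ j ∈ (univ : Finset (Fin r)),
          f j (fun α => xs α (σ α i)) * g j (fun α => xs α (σ α i)) := by
      intro i
      rw [hsum]
      exact Finset.sum_congr rfl fun j _ => hfg j _
    rw [Finset.prod_congr rfl fun i _ => e2 i, Finset.prod_univ_sum, Fintype.piFinset_univ,
      Finset.mul_sum]
  rw [e1]
  apply Finset.sum_eq_zero
  intro c _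
  -- two rows with the same term and the same classes on the odd side
  obtain ⟨j, hj⟩ := Fintype.exists_lt_card_fiber_of_mul_lt_card (f := c) (n := m)
    (by rw [Fintype.card_fin]; exact hr)
  obtain ⟨i, hi, i', hi', hii, hcl⟩ := Finset.exists_ne_map_eq_of_card_lt_of_maps_to
    (s := univ.filter fun i => c i = j)
    (t := (univ : Finset ((α : O j) → Fin (k α))))
    (f := fun i => fun α : O j => κ i α)
    (by
      rw [Finset.card_univ, Fintype.card_pi]
      simp only [Fintype.card_fin]
      rw [Finset.prod_coe_sort (O j) k]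
      exact lt_of_le_of_lt (hm (O j) (hO j) (hOu j)) hj)
    (fun i _ => Finset.mem_univ _)
  have hci : c i = j := (Finset.mem_filter.1 hi).2
  have hci' : c i' = j := (Finset.mem_filter.1 hi').2
  have hκ : ∀ α ∈ O j, κ i α = κ i' α := fun α hα => congrFun hcl ⟨α, hα⟩
  obtain ⟨ρ, hρ⟩ : ∃ ρ : Equiv.Perm ι, ρ = Equiv.swap i i' := ⟨_, rfl⟩
  obtain ⟨h, hh⟩ : ∃ h : Fin d → Equiv.Perm ι, ∀ α, h α = if α ∈ O j then ρ else 1 :=
    ⟨fun α => if α ∈ O j then ρ else 1, fun α => rfl⟩
  have hρρ : ρ * ρ = 1 := by rw [hρ]; exact Equiv.swap_mul_self i i'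
  have hhh : h * h = 1 := by
    funext α
    rw [Pi.mul_apply, hh]
    by_cases hα : α ∈ O j
    · rw [if_pos hα, hρρ]; rfl
    · rw [if_neg hα]; rfl
  have hcρ : ∀ l, c (ρ l) = c l := by
    intro l
    rw [hρ]
    by_cases h1 : l = i
    · rw [h1, Equiv.swap_apply_left, hci, hci']
    · by_cases h2 : l = i'
      · rw [h2, Equiv.swap_apply_right, hci, hci']
      · rw [Equiv.swap_apply_of_ne_of_ne h1 h2]
  have hκρ : ∀ α ∈ O j, ∀ l, κ (ρ l) α = κ l α := by
    intro α hα l
    rw [hρ]
    by_cases h1 : l = i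
    · rw [h1, Equiv.swap_apply_left, hκ α hα]
    · by_cases h2 : l = i'
      · rw [h2, Equiv.swap_apply_right, hκ α hα]
      · rw [Equiv.swap_apply_of_ne_of_ne h1 h2]
  -- away from the two rows nothing moves
  have hfix : ∀ l, c l ≠ j → ρ l = l := by
    intro l hl
    rw [hρ]
    apply Equiv.swap_apply_of_ne_of_ne
    · rintro rfl; exact hl hci
    · rintro rfl; exact hl hci'
  have hprod : ∀ σ : Fin d → Equiv.Perm ι,
      ∏ i : ι, (f (c i) (fun α => xs α ((σ * h) α i)) * g (c i) (fun α => xs α ((σ * h) α i))) =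
      ∏ i : ι, (f (c i) (fun α => xs α (σ α i)) * g (c i) (fun α => xs α (σ α i))) := by
    intro σ
    rw [Finset.prod_mul_distrib, Finset.prod_mul_distrib]
    congr 1
    · refine Finset.prod_congr rfl fun l _ => ?_
      by_cases hl : c l = j
      · apply hf (c l)
        intro α hα
        rw [hl, Finset.mem_coe, Finset.mem_compl] at hα
        rw [Pi.mul_apply, hh, if_neg hα, mul_one]
      · congr 1
        funext α
        rw [Pi.mul_apply, Equiv.Perm.mul_apply, hh]
        by_cases hα : α ∈ O j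
        · rw [if_pos hα, hfix l hl]
        · rw [if_neg hα, Equiv.Perm.one_apply]
    · rw [← Equiv.prod_comp ρ (fun l => g (c l) (fun α => xs α (σ α l)))]
      refine Finset.prod_congr rfl fun l _ => ?_
      rw [hcρ]
      by_cases hl : c l = j
      · apply hg (c l)
        intro α hα
        rw [hl, Finset.mem_coe] at hα
        rw [Pi.mul_apply, Equiv.Perm.mul_apply, hh, if_pos hα]
      · congr 1
        funext α
        rw [Pi.mul_apply, Equiv.Perm.mul_apply, hh]
        by_cases hα : α ∈ O j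
        · rw [if_pos hα]
        · rw [if_neg hα, Equiv.Perm.one_apply, hfix l hl]
  have hsgn : ∀ σ : Fin d → Equiv.Perm ι, CPX_sgn K S (σ * h) = - CPX_sgn K S σ := fun σ =>
    CPX_sgn_mul_swap S (O j) (hO j) σ h hii (fun α => by rw [hh, hρ])
  refine Finset.sum_involution (fun σ _ => σ * h) ?_ ?_ ?_ ?_
  · intro σ _
    rw [hsgn, hprod]
    ring
  · intro σ _ _ heq
    -- `h ≠ 1`
    obtain ⟨α, hα⟩ : (O j ∩ S).Nonempty := Finset.card_pos.1 (hO j).pos
    have h1 : h = 1 := mul_eq_left.1 heq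
    have h2 := congrFun h1 α
    rw [hh, if_pos (Finset.mem_inter.1 hα).1, hρ, Pi.one_apply, Equiv.swap_eq_one_iff] at h2
    exact hii h2
  · intro σ hσ
    rw [CPX_mem_perms] at hσ ⊢
    intro α l
    rw [Pi.mul_apply, Equiv.Perm.mul_apply, hσ, hh]
    by_cases hα : α ∈ O j
    · rw [if_pos hα]; exact hκρ α hα l
    · rw [if_neg hα, Equiv.Perm.one_apply]
  · intro σ _
    rw [mul_assoc, hhh, mul_one]

/-- Add the row `x` to the rows `xs`. -/
def CPX_addRow {ι : Type} (x : (α : Fin d) → Q α) (xs : (α : Fin d) → ι → Q α) :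
    (α : Fin d) → Option ι → Q α :=
  fun α o => o.elim (x α) (xs α)

/-- Give the new row the classes `c`. -/
def CPX_addClass {ι : Type} (c : (α : Fin d) → Fin (k α)) (κ : ι → (α : Fin d) → Fin (k α)) :
    Option ι → (α : Fin d) → Fin (k α) :=
  fun o => o.elim c κ

/-- The terms in which the new row is matched with itself. -/
lemma CPX_sum_fixing (S : Finset (Fin d)) (T : ((α : Fin d) → Q α) → K) {ι : Type} [Fintype ι]
    [DecidableEq ι] (κ : ι → (α : Fin d) → Fin (k α)) (c : (α : Fin d) → Fin (k α))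
    (x : (α : Fin d) → Q α) (xs : (α : Fin d) → ι → Q α) :
    ∑ σ ∈ (CPX_perms (CPX_addClass c κ)).filter (fun σ => ∀ α, σ α none = none),
      CPX_sgn K S σ * ∏ o : Option ι, T (fun α => CPX_addRow x xs α (σ α o)) =
      T x * CPX_csum S κ T xs := by
  unfold CPX_csum
  rw [Finset.mul_sum]
  symm
  refine Finset.sum_nbij (fun τ α => (τ α).optionCongr) ?_ ?_ ?_ ?_
  · intro τ hτ
    rw [CPX_mem_perms] at hτ
    rw [Finset.mem_filter, CPX_mem_perms]
    refine ⟨?_, fun α => by simp⟩
    intro α o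
    rcases o with _ | i
    · rfl
    · exact hτ α i
  · intro τ _ τ' _ h
    funext α
    exact Equiv.optionCongr_injective (congrFun h α)
  · intro σ hσ
    rw [Finset.mem_coe, Finset.mem_filter, CPX_mem_perms] at hσ
    have h1 : ∀ α, (Equiv.removeNone (σ α)).optionCongr = σ α := by
      intro α
      rw [map_equiv_removeNone, hσ.2 α, Equiv.swap_self]
      exact one_mul _
    refine ⟨fun α => Equiv.removeNone (σ α), ?_, ?_⟩
    · rw [Finset.mem_coe, CPX_mem_perms]
      intro α i
      have h2 := hσ.1 α (some i)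
      rw [← h1 α] at h2
      exact h2
    · funext α
      exact h1 α
  · intro τ _
    rw [Fintype.prod_option]
    have h1 : CPX_sgn K S (fun α => (τ α).optionCongr) = CPX_sgn K S τ := by
      unfold CPX_sgn
      refine Finset.prod_congr rfl fun α _ => ?_
      rw [Equiv.optionCongr_sign]
    rw [h1, ← mul_assoc, mul_comm (T x) (CPX_sgn K S τ), mul_assoc]
    congr 1

/-- The other terms have partition rank at most one as functions of the new row. -/
lemma CPX_rankLEOne_term (α₀ : Fin d) (T : ((α : Fin d) → Q α) → K)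
    {ι : Type} [Fintype ι] [DecidableEq ι] (κ : ι → (α : Fin d) → Fin (k α))
    (c : (α : Fin d) → Fin (k α)) (hc : ∀ i, κ i ≠ c) (xs : (α : Fin d) → ι → Q α)
    {σ : Fin d → Equiv.Perm (Option ι)} (hσ : σ ∈ CPX_perms (CPX_addClass c κ))
    (hne : ¬ ∀ α, σ α none = none) :
    RankLEOne (twoParts d)
      (fun x => ∏ o : Option ι, T (fun α => CPX_addRow x xs α (σ α o))) := by
  classical
  rw [CPX_mem_perms] at hσ
  obtain ⟨j, hj⟩ : ∃ j, j = (σ α₀).symm none := ⟨_, rfl⟩
  obtain ⟨I, hI⟩ : ∃ I : Finset (Fin d), I = univ.filter (fun α => σ α j = none) := ⟨_, rfl⟩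
  have hI' : ∀ α, α ∈ I ↔ σ α j = none := by intro α; rw [hI]; simp
  have h1 : I.Nonempty := ⟨α₀, (hI' α₀).2 (by rw [hj]; simp)⟩
  have h2 : (Iᶜ).Nonempty := by
    rw [Finset.nonempty_iff_ne_empty]
    intro h0
    have hall : ∀ α, σ α j = none := by
      intro α
      rw [← hI']
      by_contra hα
      have : α ∈ Iᶜ := Finset.mem_compl.2 hα
      rw [h0] at this
      simp at this
    have hjn : j = none := by
      rcases j with _ | i
      · rfl
      · exfalso
        apply hc i
        funext α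
        have h3 := hσ α (some i)
        rw [hall α] at h3
        exact h3.symm
    apply hne
    intro α
    rw [← hjn]
    rw [hall α, hjn]
  have h3 := rankLEOne_mul (K := K) (Q := Q) h1 h2
    (f := fun x => T (fun α => CPX_addRow x xs α (σ α j)))
    (g := fun x => ∏ o ∈ univ.erase j, T (fun α => CPX_addRow x xs α (σ α o))) ?_ ?_
  · convert h3 using 1
    funext x
    rw [← Finset.mul_prod_erase _ _ (Finset.mem_univ j)]
  · intro x y hxy
    show T _ = T _
    congr 1
    funext α
    by_cases hα : σ α j = none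
    · rw [hα]
      exact hxy α (by exact_mod_cast (hI' α).2 hα)
    · obtain ⟨i, hi⟩ := Option.ne_none_iff_exists'.1 hα
      rw [hi]
      rfl
  · intro x y hxy
    refine Finset.prod_congr rfl fun o ho => ?_
    congr 1
    funext α
    by_cases hα : σ α o = none
    · rw [hα]
      apply hxy α
      rw [Finset.mem_coe, Finset.mem_compl, hI']
      intro h
      exact Finset.ne_of_mem_erase ho ((σ α).injective (hα.trans h.symm))
    · obtain ⟨k, hk⟩ := Option.ne_none_iff_exists'.1 hα
      rw [hk]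
      rfl

/-- **Extension.** -/
lemma CPX_exists_extension (S : Finset (Fin d)) (α₀ : Fin d) (T : ((α : Fin d) → Q α) → K)
    {ι : Type} [Fintype ι] [DecidableEq ι] (κ : ι → (α : Fin d) → Fin (k α))
    (c : (α : Fin d) → Fin (k α)) (hc : ∀ i, κ i ≠ c)
    (xs : (α : Fin d) → ι → Q α) (h : CPX_csum S κ T xs ≠ 0)
    (hrank : ((((Fintype.card ι + 1).factorial ^ d : ℕ)) : ℕ∞) ≤ rank (twoParts d) T) :
    ∃ x : (α : Fin d) → Q α, CPX_csum S (CPX_addClass c κ) T (CPX_addRow x xs) ≠ 0 := by
  classical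
  by_contra hcon
  push Not at hcon
  obtain ⟨rest, hrest⟩ : ∃ rest : Finset (Fin d → Equiv.Perm (Option ι)),
    rest = (CPX_perms (CPX_addClass c κ)).filter (fun σ => ¬ ∀ α, σ α none = none) := ⟨_, rfl⟩
  have h1 : ∀ x, T x = ∑ σ ∈ rest,
      (-(CPX_csum S κ T xs)⁻¹ * CPX_sgn K S σ) *
        ∏ o : Option ι, T (fun α => CPX_addRow x xs α (σ α o)) := by
    intro x
    have h2 := hcon x
    unfold CPX_csum at h2
    rw [← Finset.sum_filter_add_sum_filter_not (CPX_perms (CPX_addClass c κ))
      (fun σ => ∀ α, σ α none = none), CPX_sum_fixing, ← hrest] at h2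
    have h3 : ∑ σ ∈ rest, CPX_sgn K S σ * ∏ o : Option ι, T (fun α => CPX_addRow x xs α (σ α o)) =
      - (T x * CPX_csum S κ T xs) := by
      rw [eq_neg_iff_add_eq_zero, add_comm]; exact h2
    simp only [mul_assoc]
    rw [← Finset.mul_sum, h3]
    field_simp
  have h2 : SumOf (twoParts d) T rest.card := by
    refine SumOf.of_finset rest _ ?_ h1
    intro σ hσ
    rw [hrest, Finset.mem_filter] at hσ
    apply (CPX_rankLEOne_term α₀ T κ c hc xs hσ.1 hσ.2).smul
    intro P hP
    apply Finset.card_pos.1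
    rw [show P.parts.card = 2 from hP]
    norm_num
  refine not_sumOf_of_le_rank hrank ?_ h2
  have h3 : rest ⊂ (univ : Finset (Fin d → Equiv.Perm (Option ι))) := by
    rw [Finset.ssubset_univ_iff]
    intro hsub
    have h5 : (1 : Fin d → Equiv.Perm (Option ι)) ∈ rest := by
      rw [hsub]; exact Finset.mem_univ _
    rw [hrest, Finset.mem_filter] at h5
    exact h5.2 fun α => rfl
  have h4 := Finset.card_lt_card h3
  rw [Finset.card_univ, Fintype.card_fun, Fintype.card_perm, Fintype.card_option,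
    Fintype.card_fin] at h4
  exact h4

/-- A tensor of large partition rank has a nonvanishing signed sum with `n` rows, for any `n`
up to the number of cells. -/
lemma CPX_exists_csum_ne_zero (S : Finset (Fin d)) (α₀ : Fin d) (T : ((α : Fin d) → Q α) → K)
    (n : ℕ) (hn : n ≤ ∏ α, k α)
    (hrank : (((n.factorial ^ d : ℕ)) : ℕ∞) ≤ rank (twoParts d) T) :
    ∃ (ι : Type) (_ : Fintype ι) (_ : DecidableEq ι) (κ : ι → (α : Fin d) → Fin (k α))
      (xs : (α : Fin d) → ι → Q α),
      Fintype.card ι = n ∧ Function.Injective κ ∧ CPX_csum S κ T xs ≠ 0 := by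
  induction n with
  | zero =>
    refine ⟨Empty, inferInstance, inferInstance, fun i => i.elim, fun α i => i.elim, rfl,
      fun i => i.elim, ?_⟩
    have h1 : (CPX_perms (fun (i : Empty) => (i.elim : (α : Fin d) → Fin (k α)))) = {1} := by
      rw [Finset.eq_singleton_iff_unique_mem]
      refine ⟨CPX_mem_perms.2 fun α i => i.elim, fun σ _ => ?_⟩
      funext α
      ext i
      exact i.elim
    unfold CPX_csum
    rw [h1]
    simp [CPX_sgn]
  | succ n ih =>
    obtain ⟨ι, _, _, κ, xs, h1, h2, h3⟩ := ih (by omega) (le_trans (by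
      have : n.factorial ^ d ≤ (n + 1).factorial ^ d :=
        Nat.pow_le_pow_left (Nat.factorial_le (Nat.le_succ n)) _
      exact_mod_cast this) hrank)
    -- an empty cell
    have h4 : ∃ c, ∀ i, κ i ≠ c := by
      by_contra hcon
      push Not at hcon
      have h5 : Fintype.card ((α : Fin d) → Fin (k α)) ≤ Fintype.card ι :=
        Fintype.card_le_of_surjective κ hcon
      rw [Fintype.card_pi] at h5
      simp only [Fintype.card_fin] at h5
      omega
    obtain ⟨c, hc⟩ := h4
    obtain ⟨x, hx⟩ := CPX_exists_extension S α₀ T κ c hc xs h3 (by rw [h1]; exact hrank)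
    refine ⟨Option ι, inferInstance, inferInstance, CPX_addClass c κ, CPX_addRow x xs, by
      rw [Fintype.card_option, h1], ?_, hx⟩
    intro o o' hoo
    rcases o with _ | i <;> rcases o' with _ | i'
    · rfl
    · exact absurd hoo.symm (hc i')
    · exact absurd hoo (hc i)
    · exact congrArg some (h2 hoo)

end Csum

theorem CPX (hCV3 : CV3_stmt) : CPX_stmt := by
  classical
  intro l
  obtain ⟨k, hk⟩ : ∃ k : ℕ, l + 1 ≤ k ^ 2 := ⟨l + 1, by nlinarith⟩
  obtain ⟨N, hN⟩ : ∃ N : ℕ, N = l * k + 1 := ⟨_, rfl⟩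
  refine ⟨N.factorial ^ 3, N, ?_⟩
  intro K L _ _ φ X Y Z T hT
  have hk1 : 1 ≤ k := by
    rcases Nat.eq_zero_or_pos k with rfl | h
    · norm_num at hk
    · exact h
  let Q : Fin 3 → Type := ![X, Y, Z]
  let T' : ((α : Fin 3) → Q α) → K := fun v => T (v 0) (v 1) (v 2)
  have h1 : ¬ ∃ r' ≤ N.factorial ^ 3, SumOf (slices 3) T' r' := by
    rw [hCV3 K Q T' (N.factorial ^ 3)]
    exact hT
  have hrank : ((N.factorial ^ 3 : ℕ) : ℕ∞) ≤ rank (twoParts 3) T' := by
    by_contra hcon
    push Not at hcon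
    obtain ⟨r, hr, hs⟩ := exists_sumOf_of_rank_lt hcon
    exact h1 ⟨r, hr.le, by rw [slices_three]; exact hs⟩
  have hNk : N ≤ ∏ α : Fin 3, (fun _ : Fin 3 => k) α := by
    rw [Finset.prod_const, Finset.card_univ, Fintype.card_fin, hN]
    nlinarith
  obtain ⟨ι, _, _, κ, xs, hι, hκ, hne⟩ := CPX_exists_csum_ne_zero (k := fun _ => k) (univ : Finset (Fin 3)) 0 T' N
    hNk hrank
  let e : Fin N ≃ ι := (Fintype.equivFinOfCardEq hι).symm
  refine ⟨fun i => xs 0 (e i), fun i => xs 1 (e i), fun i => xs 2 (e i), fun hS => ?_⟩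
  let U : ((α : Fin 3) → (fun _ : Fin 3 => Fin N) α) → L := fun v => φ (T' (fun α => xs α (e (v α))))
  have hU : ∃ r' ≤ l, SumOf (slices 3) U r' := by
    rw [hCV3 L (fun _ => Fin N) U l]
    exact hS
  obtain ⟨r, hr, hs⟩ := hU
  rw [slices_three] at hs
  have hodd : Odd (univ : Finset (Fin 3)).card := by
    rw [Finset.card_univ, Fintype.card_fin]
    exact ⟨1, rfl⟩
  have hz := CPX_csum_eq_zero (k := fun _ => k) hodd 0 hs (m := k) (by
    intro O hO hOu
    rw [Finset.inter_univ] at hO
    rw [Finset.prod_const]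
    have h1 : O.card < 3 := by
      have := Finset.card_lt_card (Finset.ssubset_univ_iff.2 hOu)
      rwa [Finset.card_univ, Fintype.card_fin] at this
    obtain ⟨b, hb⟩ := hO
    have h2 : O.card = 1 := by omega
    rw [h2, pow_one]) κ (by
      rw [hι, hN]
      have := Nat.mul_le_mul_right k hr
      omega) (fun α i => e.symm i)
  apply hne
  apply φ.injective
  rw [map_zero, ← hz]
  unfold CPX_csum CPX_sgn
  rw [map_sum]
  refine Finset.sum_congr rfl (fun σ _ => ?_)
  rw [map_mul, map_prod, map_prod]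
  congr 1
  · refine Finset.prod_congr rfl (fun α _ => ?_)
    exact map_intCast φ _
  · refine Finset.prod_congr rfl (fun i _ => ?_)
    simp only [U, Equiv.apply_symm_apply]

end Pool.Agent.helper26.IM
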