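import Pool.Agent.helper26.IM.SpecA

/-!
# SP0: a point of the ring of the block data
-/

set_option autoImplicit false

open Finset

namespace Pool.Agent.helper26.IM

open Finset Pool.Agent.RRank Pool.Agent.helper35.MR

theorem SP0 (hNSZ : NSZ_stmt) : SP0_stmt := by
  intro K _ _ B 𝒰 I _ D
  have hfg : (Algebra.adjoin K
      (Set.range fun i => (UF.mk 𝒰 (fun b => D b i) : UF 𝒰 fun _ : B => K))).FG :=
    Subalgebra.fg_def.mpr ⟨_, Set.finite_range _, rfl⟩
  have hft := (Subalgebra.fg_iff_finiteType _).mp hfg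
  exact hNSZ K _

end Pool.Agent.helper26.IM
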